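import Pool.Agent.helper62.EN.SpecX

open scoped MatrixGroups ContDiff Topology UpperHalfPlane ComplexConjugate
open UpperHalfPlane MeasureTheory Filter Set

set_option autoImplicit false

namespace Pool.Agent.EN

theorem XCY_aM_zero : RS.aM 0 = 1 := by
  apply Subtype.ext
  ext i j
  fin_cases i <;> fin_cases j <;> simp [RS.aM]

theorem XCY_aM_add (s t : ℝ) : RS.aM (s + t) = RS.aM s * RS.aM t := by
  apply Subtype.ext
  have h1 : Real.exp ((s + t) / 2) = Real.exp (s / 2) * Real.exp (t / 2) := by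
    rw [← Real.exp_add]
    congr 1
    ring
  have h2 : Real.exp (-((s + t) / 2)) = Real.exp (-(s / 2)) * Real.exp (-(t / 2)) := by
    rw [← Real.exp_add]
    congr 1
    ring
  ext i j
  fin_cases i <;> fin_cases j <;> simp [RS.aM, Matrix.mul_apply, Fin.sum_univ_two, h1, h2]

/-- the lower left entry of the conjugate by `aM t` -/
theorem XCY_conj (t : ℝ) (h : SL(2, ℝ)) :
    ((RS.aM t)⁻¹ * h * RS.aM t).1 1 0 = Real.exp t * h.1 1 0 := by
  have h1 : Real.exp t = Real.exp (t / 2) * Real.exp (t / 2) := by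
    rw [← Real.exp_add]
    congr 1
    ring
  rw [Matrix.SpecialLinearGroup.coe_mul, Matrix.SpecialLinearGroup.coe_mul,
    Matrix.SpecialLinearGroup.coe_inv, Matrix.adjugate_fin_two]
  simp only [RS.aM, Matrix.mul_apply, Fin.sum_univ_two, Matrix.of_apply, Matrix.cons_val', Matrix.cons_val_zero,
    Matrix.cons_val_one, Matrix.cons_val_fin_one]
  rw [h1]
  ring

theorem XCY_key {η x y : ℝ} (hη0 : 0 < η) (hη1 : η ≤ 1 / 4) (hx : |x| < η) (hy : |y| < η) :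
    -(η / 4) ≤ x * y ∧ x * y ≤ η / 4 := by
  have h1 : |x * y| ≤ η / 4 := by
    rw [abs_mul]
    have h2 := mul_le_mul hx.le (hy.le.trans hη1) (abs_nonneg _) hη0.le
    linarith
  exact abs_le.1 h1

theorem XCY_r1 {η a b c d : ℝ} (hη0 : 0 < η) (hη1 : η ≤ 1 / 4) (ha : |a - 1| < η) (hb : |b - 1| < η)
    (hc : |c| < η) (hd : |d| < η) : |a * b - c * d - 1| < 4 * η := by
  have c1 := XCY_key hη0 hη1 ha hb
  have c2 := XCY_key hη0 hη1 hc hd
  have h1 : a * b - c * d - 1 = (a - 1) * (b - 1) + (a - 1) + (b - 1) - c * d := by ring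
  rw [h1]
  have a1 := abs_lt.1 ha
  have b1 := abs_lt.1 hb
  rw [abs_lt]
  constructor <;> linarith [a1.1, a1.2, b1.1, b1.2, c1.1, c1.2, c2.1, c2.2]

theorem XCY_r2 {η a b c d : ℝ} (hη0 : 0 < η) (hη1 : η ≤ 1 / 4) (ha : |a - 1| < η) (hb : |b| < η)
    (hc : |c| < η) (hd : |d - 1| < η) : |a * b - c * d - 0| < 4 * η := by
  have c1 := XCY_key hη0 hη1 ha hb
  have c2 := XCY_key hη0 hη1 hc hd
  have h1 : a * b - c * d - 0 = (a - 1) * b + b - c * (d - 1) - c := by ring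
  rw [h1]
  have a1 := abs_lt.1 hb
  have b1 := abs_lt.1 hc
  rw [abs_lt]
  constructor <;> linarith [a1.1, a1.2, b1.1, b1.2, c1.1, c1.2, c2.1, c2.2]

theorem XCY_nr {δ : ℝ} (h0 : 0 < δ) (h1 : δ ≤ 1) {h k : SL(2, ℝ)} (hh : nr (δ / 4) h) (hk : nr (δ / 4) k) :
    nr δ (h⁻¹ * k) := by
  have a1 := hh 0 0
  have a2 := hh 0 1
  have a3 := hh 1 0
  have a4 := hh 1 1
  have b1 := hk 0 0
  have b2 := hk 0 1
  have b3 := hk 1 0
  have b4 := hk 1 1
  simp only [Matrix.one_apply_eq, Matrix.one_apply_ne (show (0 : Fin 2) ≠ 1 by decide),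
    Matrix.one_apply_ne (show (1 : Fin 2) ≠ 0 by decide), sub_zero] at a1 a2 a3 a4 b1 b2 b3 b4
  have hη0 : 0 < δ / 4 := by linarith
  have hη1 : δ / 4 ≤ 1 / 4 := by linarith
  have hδη : δ = 4 * (δ / 4) := by ring
  have e1 : (h⁻¹ * k).1 0 0 = h.1 1 1 * k.1 0 0 - h.1 0 1 * k.1 1 0 := by
    rw [Matrix.SpecialLinearGroup.coe_mul, Matrix.SpecialLinearGroup.coe_inv, Matrix.adjugate_fin_two]
    simp [Matrix.mul_apply, Fin.sum_univ_two]
    ring
  have e2 : (h⁻¹ * k).1 0 1 = h.1 1 1 * k.1 0 1 - h.1 0 1 * k.1 1 1 := by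
    rw [Matrix.SpecialLinearGroup.coe_mul, Matrix.SpecialLinearGroup.coe_inv, Matrix.adjugate_fin_two]
    simp [Matrix.mul_apply, Fin.sum_univ_two]
    ring
  have e3 : (h⁻¹ * k).1 1 0 = h.1 0 0 * k.1 1 0 - h.1 1 0 * k.1 0 0 := by
    rw [Matrix.SpecialLinearGroup.coe_mul, Matrix.SpecialLinearGroup.coe_inv, Matrix.adjugate_fin_two]
    simp [Matrix.mul_apply, Fin.sum_univ_two]
    ring
  have e4 : (h⁻¹ * k).1 1 1 = h.1 0 0 * k.1 1 1 - h.1 1 0 * k.1 0 1 := by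
    rw [Matrix.SpecialLinearGroup.coe_mul, Matrix.SpecialLinearGroup.coe_inv, Matrix.adjugate_fin_two]
    simp [Matrix.mul_apply, Fin.sum_univ_two]
    ring
  intro i j
  rw [hδη]
  fin_cases i <;> fin_cases j
  · change |(h⁻¹ * k).1 0 0 - 1| < 4 * (δ / 4)
    rw [e1]
    exact XCY_r1 hη0 hη1 a4 b1 a2 b3
  · change |(h⁻¹ * k).1 0 1 - 0| < 4 * (δ / 4)
    rw [e2]
    exact XCY_r2 hη0 hη1 a4 b2 a2 b4
  · change |(h⁻¹ * k).1 1 0 - 0| < 4 * (δ / 4)
    rw [e3]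
    exact XCY_r2 hη0 hη1 a1 b3 a3 b1
  · change |(h⁻¹ * k).1 1 1 - 1| < 4 * (δ / 4)
    rw [e4]
    exact XCY_r1 hη0 hη1 a1 b4 a3 b2

theorem XCY_entry (i j : Fin 2) : Continuous fun h : SL(2, ℝ) => h.1 i j :=
  (continuous_apply_apply i j).comp continuous_subtype_val

theorem XCY_proof (h1 : XFL_stmt) (h2 : XLF_stmt) (h3 : XVO_stmt) (h4 : XUN_stmt) : XCY_stmt := by
  intro Γ F hΓ hF
  obtain ⟨hfl, -, hcX, -, hsX, -, -, -, hflX, -, hmk, -⟩ := h1 Γ
  obtain ⟨δ, hδ0, hδ1, hδ⟩ := h2 Γ hΓ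
  obtain ⟨C, hC0, hC⟩ := h3
  refine ⟨δ / 4, C * Real.exp 1, by linarith, by positivity, fun p P hP hcell n w hn => ?_⟩
  have hcf : Continuous (fl Γ 1) := by
    have hpr : Continuous (fun x : XG Γ => ((1 : ℝ), x)) := Continuous.prodMk_right 1
    have hco : Continuous ((fun q : ℝ × XG Γ => fl Γ q.1 q.2) ∘ (fun x : XG Γ => ((1 : ℝ), x))) :=
      hfl.cont.comp hpr
    have heq : ((fun q : ℝ × XG Γ => fl Γ q.1 q.2) ∘ (fun x : XG Γ => ((1 : ℝ), x))) = fl Γ 1 := rfl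
    rw [← heq]
    exact hco
  have hiter : ∀ (i : ℕ) (g : SL(2, ℝ)), (fl Γ 1)^[i] (mkX Γ g) = mkX Γ (g * RS.aM i) := by
    intro i g
    induction i with
    | zero =>
      rw [Function.iterate_zero_apply, Nat.cast_zero, XCY_aM_zero, mul_one]
    | succ i ih =>
      rw [Function.iterate_succ_apply', ih, hflX, mul_assoc, ← XCY_aM_add]
      push_cast
      rfl
  have hZm : MeasurableSet {x | ∀ i : Fin n, P ((fl Γ 1)^[i] x) = w i} := by
    have h5 : {x | ∀ i : Fin n, P ((fl Γ 1)^[i] x) = w i} =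
        ⋂ i : Fin n, (fun x => P ((fl Γ 1)^[i] x)) ⁻¹' {w i} := by
      ext x
      simp
    rw [h5]
    refine MeasurableSet.iInter fun i => ?_
    exact (hP.comp (hcf.iterate i).measurable) (measurableSet_singleton _)
  have hRHS : 0 ≤ C * Real.exp 1 * Real.exp (-(n : ℝ)) := by positivity
  by_cases hne : ∃ x, x ∈ {x | ∀ i : Fin n, P ((fl Γ 1)^[i] x) = w i}
  · obtain ⟨x₀, hx₀⟩ := hne
    obtain ⟨g₀, rfl⟩ := hsX x₀
    obtain ⟨τ, hτ⟩ : ∃ τ, τ = Real.exp (1 - n) := ⟨_, rfl⟩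
    have hτ0 : 0 < τ := by rw [hτ]; exact Real.exp_pos _
    have hHm : MeasurableSet {h : SL(2, ℝ) | (∀ i j : Fin 2, |h.1 i j| ≤ 2) ∧ |h.1 1 0| ≤ τ} := by
      apply IsClosed.measurableSet
      rw [ofPred_and]
      apply IsClosed.inter
      · have h5 : {h : SL(2, ℝ) | ∀ i j : Fin 2, |h.1 i j| ≤ 2} = ⋂ i : Fin 2, ⋂ j : Fin 2, {h : SL(2, ℝ) | |h.1 i j| ≤ 2} := by
          ext h
          simp
        rw [h5]
        exact isClosed_iInter fun i => isClosed_iInter fun j =>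
          isClosed_le (continuous_abs.comp (XCY_entry i j)) continuous_const
      · exact isClosed_le (continuous_abs.comp (XCY_entry 1 0)) continuous_const
    have hsub : RS.dG F ∩ mkX Γ ⁻¹' {x | ∀ i : Fin n, P ((fl Γ 1)^[i] x) = w i} ⊆
        RS.dG F ∩ {g | ∃ γ : Γ, g₀⁻¹ * (γ : SL(2, ℝ)) * g ∈
          {h : SL(2, ℝ) | (∀ i j : Fin 2, |h.1 i j| ≤ 2) ∧ |h.1 1 0| ≤ τ}} := by
      rintro g ⟨hgF, hg⟩
      refine ⟨hgF, ?_⟩
      have hg' : ∀ i : Fin n, P ((fl Γ 1)^[i] (mkX Γ g)) = w i := hg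
      have hγ : ∀ i : ℕ, ∃ γ : Γ, i < n → nr δ ((g₀ * RS.aM i)⁻¹ * (γ : SL(2, ℝ)) * (g * RS.aM i)) := by
        intro i
        by_cases hi : i < n
        · have e1 := hx₀ ⟨i, hi⟩
          have e2 := hg' ⟨i, hi⟩
          rw [hiter] at e1 e2
          obtain ⟨x, hx⟩ := hcell (w ⟨i, hi⟩) ⟨_, e1⟩
          obtain ⟨k₁, u₁, hu₁, hk₁, hk₁'⟩ := hx e1
          obtain ⟨k₂, u₂, hu₂, hk₂, hk₂'⟩ := hx e2
          obtain ⟨a, ha⟩ := (hmk _ _).1 (hk₁.symm.trans hk₂)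
          obtain ⟨b, hb⟩ := (hmk _ _).1 hk₁'
          obtain ⟨c, hc⟩ := (hmk _ _).1 hk₂'
          refine ⟨b⁻¹ * a⁻¹ * c, fun _ => ?_⟩
          have e3 : (g₀ * RS.aM i)⁻¹ * ((b⁻¹ * a⁻¹ * c : Γ) : SL(2, ℝ)) * (g * RS.aM i) = u₁⁻¹ * u₂ := by
            have e4 : (c : SL(2, ℝ)) * (g * RS.aM i) = a * k₁ * u₂ := by rw [ha]; exact hc
            have e5 : g₀ * RS.aM i = (b : SL(2, ℝ))⁻¹ * (k₁ * u₁) := by
              rw [← hb]
              exact (inv_mul_cancel_left _ _).symm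
            push_cast
            rw [mul_assoc _ _ (g * RS.aM i), mul_assoc _ _ (g * RS.aM i), e4, e5]
            group
          rw [e3]
          exact XCY_nr hδ0 hδ1 hu₁ hu₂
        · exact ⟨1, fun h => absurd h hi⟩
      choose γ hγ using hγ
      have hγ0 := hδ g₀ g n γ hγ
      refine ⟨γ 0, ?_⟩
      rw [mem_ofPred_eq]
      constructor
      · intro i j
        have e1 := hγ 0 (by omega) i j
        rw [Nat.cast_zero, XCY_aM_zero, mul_one, mul_one] at e1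
        have e2 : |(1 : Matrix (Fin 2) (Fin 2) ℝ) i j| ≤ 1 := by
          fin_cases i <;> fin_cases j <;> simp
        have e3 := abs_add_le ((g₀⁻¹ * (γ 0 : SL(2, ℝ)) * g).1 i j - (1 : Matrix (Fin 2) (Fin 2) ℝ) i j)
          ((1 : Matrix (Fin 2) (Fin 2) ℝ) i j)
        rw [sub_add_cancel] at e3
        linarith
      · have e1 := hγ (n - 1) (by omega) 1 0
        rw [hγ0 (n - 1) (by omega)] at e1
        have e2 : (g₀ * RS.aM ((n - 1 : ℕ) : ℝ))⁻¹ * (γ 0 : SL(2, ℝ)) * (g * RS.aM ((n - 1 : ℕ) : ℝ)) =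
            (RS.aM ((n - 1 : ℕ) : ℝ))⁻¹ * (g₀⁻¹ * (γ 0 : SL(2, ℝ)) * g) * RS.aM ((n - 1 : ℕ) : ℝ) := by
          group
        rw [e2, XCY_conj, Matrix.one_apply_ne (show (1 : Fin 2) ≠ 0 by decide), sub_zero, abs_mul,
          abs_of_pos (Real.exp_pos _)] at e1
        have e3 : τ * Real.exp ((n - 1 : ℕ) : ℝ) = 1 := by
          rw [hτ, ← Real.exp_add, Nat.cast_sub hn]
          simp
        have e4 := Real.exp_pos ((n - 1 : ℕ) : ℝ)
        by_contra hlt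
        rw [not_le] at hlt
        have e5 := mul_lt_mul_of_pos_right hlt e4
        rw [e3] at e5
        linarith
    have hle : (mX Γ F) {x | ∀ i : Fin n, P ((fl Γ 1)^[i] x) = w i} ≤ ENNReal.ofReal (C * τ) := by
      unfold mX
      rw [Measure.map_apply hcX.measurable hZm, Measure.restrict_apply (hcX.measurable hZm), inter_comm]
      exact (measure_mono hsub).trans ((h4 Γ F g₀ _ hΓ hF hHm).trans (hC τ hτ0))
    have h6 : C * τ = C * Real.exp 1 * Real.exp (-(n : ℝ)) := by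
      rw [hτ, mul_assoc, ← Real.exp_add]
      congr 1
    rw [← h6]
    exact ENNReal.toReal_le_of_le_ofReal (by positivity) hle
  · have h5 : {x | ∀ i : Fin n, P ((fl Γ 1)^[i] x) = w i} = ∅ := by
      ext x
      simp only [mem_empty_iff_false, iff_false]
      exact fun hx => hne ⟨x, hx⟩
    rw [h5, measureReal_empty]
    exact hRHS

end Pool.Agent.EN
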